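import Pool.Agent.Cm.Bet
import Pool.Agent.SQ.V.Ex

/-!
# MP_984acc_gt: the Singer conjecture for groups with a right-angled hierarchy

Let `Γ` act on a tree `T`.  The mirrored group of a vertex `v` is the semidirect product of the free product of groups of
order two indexed by the neighbours of `v` with the stabilizer of `v`: if `Γ` is the fundamental group of a closed manifold
which is cut along a hypersurface, it is the group of the orbifold given by the piece with its boundary mirrored.

The class `Hier n` is the least class of groups which contains the groups commensurable with the right-angled Coxeter groups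
of flag homology spheres of dimension `n - 1`, is closed under the passage to overgroups and subgroups of finite index, and
contains `Γ` as above if it contains the mirrored groups of all vertices.  The theorem: all `ℓ²`-Betti numbers of the groups
in `Hier n` vanish outside of the degree `n / 2`.

For example the fundamental groups of closed Haken manifolds of any dimension `n` are in `Hier n`: the manifold is cut along
a hypersurface and the boundary is mirrored; the next hypersurface of the hierarchy becomes a closed hypersurface in this
orbifold; at the end of the hierarchy there are cells with mirrored facets.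
-/

set_option autoImplicit false

namespace Pool.Agent.Results.MP_984acc_gt.Hierarchies

open Singer SingerPD

/-- The class of groups.  `cox`: it contains all groups commensurable with `Cox L`, `L` a flag homology sphere of dimension
`n - 1` (`k` and `j` are isomorphisms of `K` with subgroups of finite index).  `supergroup`, `subgroup`: it contains `Γ` if it
contains a group isomorphic to a subgroup of finite index of `Γ`, or a group of type `FP_∞` which contains `Γ` as a subgroup
of finite index.  `tree`: let `Γ` act on a tree `T` without inversions, with finitely many orbits of vertices and edges, such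
that the stabilizers of vertices and edges are of type `FP_∞`; if the mirrored groups `MirrorGroup Γ T x` are in the class
for a finite set of vertices `x` which meets all orbits, then `Γ` is in the class. -/
inductive Hier (n : ℕ) : ∀ (Γ : Type) [Group Γ], Prop
  | cox {Γ : Type} [Group Γ] {V : Type} (L : SimpleGraph V) {K : Type} [Group K] (k : K →* Cox L) (j : K →* Γ) :
      SingerCube.HSphere n L → Function.Injective k → k.range.FiniteIndex → Function.Injective j →
      j.range.FiniteIndex → Hier n Γ
  | supergroup {Γ H : Type} [Group Γ] [Group H] (j : H →* Γ) : Function.Injective j → j.range.FiniteIndex →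
      Hier n H → Hier n Γ
  | subgroup {Γ H : Type} [Group Γ] [Group H] (j : Γ →* H) : Function.Injective j → j.range.FiniteIndex →
      Nonempty (FinRes H) → Hier n H → Hier n Γ
  | tree {Γ V : Type} [Group Γ] [MulAction Γ V] (T : SimpleGraph V) (F K : Finset V) :
      T.IsTree → (∀ (g : Γ) (v w : V), T.Adj v w → T.Adj (g • v) (g • w)) →
      (∀ (g : Γ) (v w : V), T.Adj v w → g • v = w → g • w ≠ v) →
      (∀ v, ∃ x ∈ F, ∃ g : Γ, g • x = v) →
      (∀ v w, T.Adj v w → ∃ g : Γ, g • v ∈ K ∧ g • w ∈ K) →
      (∀ v : V, Nonempty (FinRes (MulAction.stabilizer Γ v))) →
      (∀ v w, T.Adj v w →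
        Nonempty (FinRes (MulAction.stabilizer Γ v ⊓ MulAction.stabilizer Γ w : Subgroup Γ))) →
      (∀ x ∈ F, Hier n (MirrorGroup Γ T x)) → Hier n Γ

/-- the groups are in the classes `SQ.V.Van i` -/
theorem van {n : ℕ} {Γ : Type} [Group Γ] (h : Hier n Γ) {i : ℕ} (hi : 2 * i ≠ n) : SQ.V.Van i Γ := by
  induction h with
  | cox L k j hL hk hkf hj hjf => exact SQ.V.van_cox hL k j hk hkf hj hjf hi
  | supergroup j hj hf _ ih => exact SQ.V.Van.supergroup j hj hf ih
  | subgroup j hj hf R _ ih => exact SQ.V.Van.subgroup j R.some hj hf ih
  | tree T F K tree act inv hF hK RV RE _ ih =>
    exact SQ.V.Van.mirror T F ⟨tree, act, inv, hF, ⟨K, hK⟩, RV, RE⟩ ih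

/-- **the theorem**: the `ℓ²`-Betti numbers of the groups with a right-angled hierarchy vanish outside of the degree `n / 2`;
they are computed with an arbitrary resolution `R` of `ℤ` by finitely generated free modules -/
theorem result {n : ℕ} {Γ : Type} [Group Γ] (h : Hier n Γ) (R : FinRes Γ) (i : ℕ) (hi : 2 * i ≠ n) : R.betti i = 0 := by
  rw [← Cm.B.h_eq_betti R.toRes R]
  exact Cm.B.h_eq_zero_of _ ((van h hi).van _)

end Pool.Agent.Results.MP_984acc_gt.Hierarchies
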