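import Pool.Agent.Cm.Strong
import Pool.Agent.Cm.Bet

/-!
# MP_984acc_gt: the Morse inequalities for mirrored groups

Let the group `Γ` act on a `CAT(0)` cube complex, given by its one-skeleton, the median graph `M`, with finitely many orbits
of cubes and stabilizers of type `FP_∞`; the complex may be locally infinite, the action need not be proper.  The mirrored
group `MirGroup Γ M v` of a vertex `v` is the semidirect product of the right-angled Coxeter group of the link of `v` with
the stabilizer of `v`.  Let `b_k` be the `ℓ²`-Betti numbers, and let `v` run over representatives of the orbits of vertices.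
Then

  `b_i(Γ) - b_(i-1)(Γ) + ... + (-1)^i b_0(Γ) ≤ ∑_v (b_i(M_v) - b_(i-1)(M_v) + ... + (-1)^i b_0(M_v))`

in every degree `i`, with `M_v = MirGroup Γ M v`.  If the numbers `b_(i-1)(M_v)` and `b_(i+1)(M_v)` vanish for all `v` then
`b_i(Γ) = ∑_v b_i(M_v)`.

In particular `b_i(Γ) ≤ ∑_v b_i(M_v)`.  So if all `M_v` have no `ℓ²`-homology outside of the degree `m` then this holds for `Γ`,
and `b_m(Γ) = ∑_v b_m(M_v)` (`concentrated`); the Singer conjecture holds for a Poincare duality group `Γ` of dimension `n` if
the numbers `b_i(M_v)`, `n / 2 < i ≤ n`, are zero for the vertices `v` of a cube complex as above (`singer`).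
-/

set_option autoImplicit false

namespace Pool.Agent.Results.MP_984acc_gt.MorseInequalities

open Singer CubeComplex

/-- **the Morse inequalities**: `Γ` acts on the `CAT(0)` cube complex with the one-skeleton `M`, with finitely many orbits of
cubes and stabilizers of type `FP_∞`, the vertices `x j` are representatives of the orbits of vertices, and `R`, `RM j` are
resolutions of `ℤ` by finitely generated free modules for `Γ` and the mirrored groups of the vertices `x j`.  The weak and the
strong inequality hold in every degree `i`, and there is equality in degree `i` if the `ℓ²`-Betti numbers of the mirrored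
groups in the degrees `i - 1` and `i + 1` are zero. -/
theorem result {Γ X J : Type} [Group Γ] [MulAction Γ X] [Fintype J] (M : SimpleGraph X) (hM : CubicalAction Γ M)
    (x : J → X) (hx : ∀ v, ∃! j : J, ∃ g : Γ, g • x j = v) (R : FinRes Γ) (RM : ∀ j, FinRes (MirGroup Γ M (x j)))
    (i : ℕ) :
    R.betti i ≤ ∑ j, (RM j).betti i ∧
      ∑ k ∈ Finset.range (i + 1), (-1) ^ (i + k) * R.betti k ≤
        ∑ j, ∑ k ∈ Finset.range (i + 1), (-1) ^ (i + k) * (RM j).betti k ∧
      ((∀ j k, (k + 1 = i ∨ k = i + 1) → (RM j).betti k = 0) → R.betti i = ∑ j, (RM j).betti i) :=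
  ⟨(Cm.betti_strong hM x hx R RM i).1, (Cm.betti_strong hM x hx R RM i).2, fun h =>
    Cm.betti_eq_sum hM x hx R RM i (fun j k hk => h j k (Or.inl hk)) fun j => h j _ (Or.inr rfl)⟩

/-- the mirrored groups determine the `ℓ²`-Betti numbers if they are concentrated in one degree -/
theorem concentrated {Γ X J : Type} [Group Γ] [MulAction Γ X] [Fintype J] (M : SimpleGraph X) (hM : CubicalAction Γ M)
    (x : J → X) (hx : ∀ v, ∃! j : J, ∃ g : Γ, g • x j = v) (R : FinRes Γ) (RM : ∀ j, FinRes (MirGroup Γ M (x j)))
    {m : ℕ} (h : ∀ j k, k ≠ m → (RM j).betti k = 0) :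
    (∀ k, k ≠ m → R.betti k = 0) ∧ R.betti m = ∑ j, (RM j).betti m := by
  refine ⟨fun k hk => le_antisymm ?_ (R.betti_nonneg k), (result M hM x hx R RM m).2.2 fun j k hk => h j k (by omega)⟩
  have h1 := (result M hM x hx R RM k).1
  rwa [Finset.sum_eq_zero fun j _ => h j k hk] at h1

/-- the weak inequality, for a family of vertices which meets all orbits -/
theorem mirror_inequality {Γ X J : Type} [Group Γ] [MulAction Γ X] [Fintype J] (M : SimpleGraph X)
    (hM : CubicalAction Γ M) (x : J → X) (hx : ∀ v, ∃ (j : J) (g : Γ), g • x j = v) (R : FinRes Γ)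
    (RM : ∀ j, FinRes (MirGroup Γ M (x j))) (i : ℕ) : R.betti i ≤ ∑ j, (RM j).betti i :=
  Cm.betti_le hM x hx R RM i

/-- **the Singer conjecture** passes from the mirrored groups to the group: it holds for a Poincare duality group of
dimension `n` if the `ℓ²`-Betti numbers of the mirrored groups vanish in the degrees `i`, `n / 2 < i ≤ n` -/
theorem singer {n : ℕ} {Γ X J : Type} [Group Γ] [MulAction Γ X] [Fintype J] (M : SimpleGraph X)
    (hM : CubicalAction Γ M) (x : J → X) (hx : ∀ v, ∃ (j : J) (g : Γ), g • x j = v) (hn : IsPD n Γ)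
    (RM : ∀ j, FinRes (MirGroup Γ M (x j))) (h : ∀ j i, n < 2 * i → i ≤ n → (RM j).betti i = 0) (R : FinRes Γ) (i : ℕ)
    (hi : 2 * i ≠ n) : R.betti i = 0 := by
  have h1 : ∀ i, n < 2 * i → R.betti i = 0 := by
    intro i hi
    refine le_antisymm ?_ (R.betti_nonneg i)
    rcases le_or_gt i n with h2 | h2
    · have h3 := mirror_inequality M hM x hx R RM i
      rwa [Finset.sum_eq_zero fun j _ => h j i hi h2] at h3
    · exact (Cm.B.Bet.top hn h2).betti_le R
  rcases lt_or_gt_of_ne hi with h2 | h2
  · rw [Cm.B.betti_dual R hn (show i + (n - i) = n by omega)]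
    exact h1 (n - i) (by omega)
  · exact h1 i h2

end Pool.Agent.Results.MP_984acc_gt.MorseInequalities
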