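import Pool.Agent.Cm.Bet
import Pool.Agent.SQ.V.Ex

/-!
# MP_984acc_gt: the Singer conjecture for a class of groups which is closed under extensions, residually and under unions

`InClass`: the smallest class of groups which contains the trivial groups and is closed under
* extensions: `G` has a normal subgroup `N` in the class, and `G / N` is bi-orderable, or amenable and locally indicable;
* residually: every nontrivial element of `G` has a nontrivial image under a homomorphism of `G` to a group in the class;
* directed unions: all finitely generated subgroups of `G` are in the class.

The theorem: let `Γ` be a group with a subgroup `H` of finite index in the class, and let `H` be isomorphic to a subgroup, of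
any index, of a Poincare duality group of dimension `n`.  Then the `ℓ²`-Betti numbers of `Γ` vanish in all degrees
`i > n / 2`.  If `Γ` or `H` is itself a Poincare duality group of dimension `n` then they vanish in all degrees `i ≠ n / 2`.

The class contains the bi-orderable groups (`of_biOrderable`), the groups which are residually unitriangular over the integers
(`unitriangular`), the commutator subgroups of right-angled Coxeter groups (`of_commutator`), it is closed under subgroups
(`subgroup`).

Proof.  For a group in the class there is a ring `R` with the properties of a discrete valuation ring with prime 2, which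
contains the group in its units, such that for every subgroup the cosets are independent over its division closure in the
skew field `D = R / 2 R`.  The homology of the group with coefficients in `D ⊗ D` vanishes in positive degrees.  By Poincare
duality and the squaring lemma the cohomology with coefficients in `D` vanishes outside the middle degree, and by the
comparison of ranks over `D`, over the skew field of fractions of `R` and over the von Neumann algebra, so does the
`ℓ²`-homology.  The ring `R` is unique (a 2-adic form of a theorem of Hughes), hence the automorphisms of the group act on it;
it is constructed for extensions as a ring of crossed Malcev-Neumann series over the 2-adic completion, or as an Ore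
localisation of a crossed product.
-/

set_option autoImplicit false

namespace Pool.Agent.Results.MP_984acc_gt.SingerTower

open Singer SQ.V

/-- the class is closed under subgroups -/
theorem subgroup {G K : Type} [Group G] [Group K] (h : InClass G) (f : K →* G) (hf : Function.Injective f) : InClass K :=
  h.subgroup K f hf

/-- bi-orderable groups are in the class -/
theorem of_biOrderable {G : Type} [Group G] (h : BiOrderable G) : InClass G := InClass.of_biOrderable h

/-- the groups which are residually unitriangular over the integers (for finitely generated groups: residually torsion-free
nilpotent) are in the class -/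
theorem unitriangular {G : Type} [Group G] (h : ∀ g : G, g ≠ 1 → ∃ (m : ℕ) (π : G →* (Matrix (Fin m) (Fin m) ℤ)ˣ),
    (∀ (k : G) (i j : Fin m), j < i → (π k).val i j = 0) ∧ (∀ (k : G) (i : Fin m), (π k).val i i = 1) ∧ π g ≠ 1) :
    InClass G :=
  InClass.of_biOrderable (SQ.BO.Cor.biOrd_of_resUT h)

/-- the groups which embed in the commutator subgroup of a right-angled Coxeter group, for example, up to finite index, the
fundamental groups of the compact special cube complexes, are in the class -/
theorem of_commutator {V K : Type} [Fintype V] [Group K] (G : SimpleGraph V) (φ : K →* commutator (RACG G))
    (hφ : Function.Injective φ) : InClass K := InClass.of_commutator G φ hφ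

/-- no `ℓ²`-homology above the degree `n / 2` -/
theorem upper {n : ℕ} {Γ P : Type} [Group Γ] [Group P] (hP : IsPD n P) (H : Subgroup Γ) [hfi : H.FiniteIndex]
    (hH : InClass H) (f : H →* P) (hf : Function.Injective f) (R : FinRes Γ) (i : ℕ) (hi : n < 2 * i) : R.betti i = 0 := by
  have hr : H.subtype.range.FiniteIndex := by
    rw [Subgroup.range_subtype]
    exact hfi
  obtain ⟨T⟩ := exists_trv_hom H.subtype H.subtype_injective hr
  have e : H ≃* f.range := MonoidHom.ofInjective hf
  have hr' : e.symm.toMonoidHom.range.FiniteIndex := by
    rw [MonoidHom.range_eq_top.2 e.symm.surjective]
    infer_instance
  obtain ⟨T'⟩ := exists_trv_hom e.symm.toMonoidHom e.symm.injective hr'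
  have h1 : Van i f.range := Van.sub f.range ((R.resFin T).resFin T') hP
    (hH.subgroup _ e.symm.toMonoidHom e.symm.injective) hi
  have h2 : Van i Γ := Van.supergroup H.subtype H.subtype_injective hr
    (Van.supergroup e.symm.toMonoidHom e.symm.injective hr' h1)
  rw [← Cm.B.h_eq_betti R.toRes R]
  exact Cm.B.h_eq_zero_of _ (h2.van _)

/-- **the theorem**: `Γ` has a subgroup `H` of finite index in the class `InClass`, and `H` is isomorphic to a subgroup of a
Poincare duality group `P` of dimension `n`.  Then the `ℓ²`-Betti numbers of `Γ` are zero above the degree `n / 2`; if `Γ` or
`H` is a Poincare duality group of dimension `n` (for example `H = P`) they are zero in all degrees different from `n / 2`;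
Poincare duality groups have resolutions as in the statement. -/
theorem result {n : ℕ} {Γ P : Type} [Group Γ] [Group P] (hP : IsPD n P) (H : Subgroup Γ) [H.FiniteIndex]
    (hH : InClass H) (f : H →* P) (hf : Function.Injective f) :
    (∀ (R : FinRes Γ) (i : ℕ), n < 2 * i → R.betti i = 0) ∧
      (IsPD n Γ ∨ IsPD n H → ∀ (R : FinRes Γ) (i : ℕ), 2 * i ≠ n → R.betti i = 0) ∧
      (IsPD n Γ → Nonempty (FinRes Γ)) := by
  refine ⟨upper hP H hH f hf, fun h R i hi => ?_, SQ.exists_finRes_of_isPD⟩
  rw [← Cm.B.h_eq_betti R.toRes R]
  exact Cm.B.h_eq_zero_of _ ((van_of_inClass H hH h hi).van _)

end Pool.Agent.Results.MP_984acc_gt.SingerTower
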